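import Pool.Agent.helper13.RF.Spec2

/-!
# Project RF (MP_16912e_nt), row XCT: two subgroups of index five
-/

set_option autoImplicit false

open NumberField IsDedekindDomain
open scoped nonZeroDivisors

namespace Pool.Agent.RF

theorem XCT_un {G : Type} [Group G] [Finite G] (H₁ H₂ : Subgroup G) (h1 : H₁.index = 5) (h2 : H₂.index = 5) (hn : H₂.Normal) (hne : H₁ ≠ H₂) :
    9 * Nat.card G = 25 * Nat.card {g : G // g ∈ H₁ ∨ g ∈ H₂} := by
  have hc1 : Nat.card H₁ * 5 = Nat.card G := by rw [← h1]; exact Subgroup.card_mul_index H₁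
  have hc2 : Nat.card H₂ * 5 = Nat.card G := by rw [← h2]; exact Subgroup.card_mul_index H₂
  have hnle : ¬ H₁ ≤ H₂ := by
    intro h
    apply hne
    apply SetLike.coe_injective
    apply Set.eq_of_subset_of_ncard_le h
    · change Nat.card H₂ ≤ Nat.card H₁
      omega
  have htop : H₁ ⊔ H₂ = ⊤ := by
    have hle : H₂ ≤ H₁ ⊔ H₂ := le_sup_right
    have e := Subgroup.relIndex_mul_index hle
    rw [h2] at e
    have hd : (H₁ ⊔ H₂).index ∣ 5 := ⟨_, by rw [← e, mul_comm]⟩
    rcases (Nat.dvd_prime Nat.prime_five).1 hd with h | h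
    · exact Subgroup.index_eq_one.1 h
    · exfalso
      rw [h] at e
      have h3 : H₂.relIndex (H₁ ⊔ H₂) = 1 := by omega
      rw [Subgroup.relIndex_eq_one] at h3
      exact hnle (le_sup_left.trans h3)
  have hrel : H₂.relIndex H₁ = 5 := by
    have h3 : H₂.relIndex (H₁ ⊔ H₂) = H₂.relIndex H₁ := Subgroup.relIndex_sup_right H₁ H₂
    rw [← h3, htop, Subgroup.relIndex_top_right, h2]
  have hinf : (H₁ ⊓ H₂).index = 25 := by
    have e := Subgroup.relIndex_mul_index (inf_le_left : H₁ ⊓ H₂ ≤ H₁)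
    rw [Subgroup.inf_relIndex_left, hrel, h1] at e
    omega
  have hci : Nat.card (H₁ ⊓ H₂ : Subgroup G) * 25 = Nat.card G := by rw [← hinf]; exact Subgroup.card_mul_index _
  have hu := Set.ncard_union_add_ncard_inter (H₁ : Set G) (H₂ : Set G) (Set.toFinite _) (Set.toFinite _)
  have e1 : (H₁ : Set G).ncard = Nat.card H₁ := rfl
  have e2 : (H₂ : Set G).ncard = Nat.card H₂ := rfl
  have e3 : ((H₁ : Set G) ∩ H₂).ncard = Nat.card (H₁ ⊓ H₂ : Subgroup G) := rfl
  have e4 : ((H₁ : Set G) ∪ H₂).ncard = Nat.card {g : G // g ∈ H₁ ∨ g ∈ H₂} := rfl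
  rw [e1, e2, e3, e4] at hu
  omega

theorem XCT : XCT_stmt := by
  intro K M _ _ _ _ _ L₁ L₂ _ _ f1 f2 hne
  have hcard : Nat.card (M ≃ₐ[K] M) = Module.finrank K M := IsGalois.card_aut_eq_finrank K M
  have hidx : ∀ L : IntermediateField K M, Module.finrank K L = 5 → L.fixingSubgroup.index = 5 := by
    intro L hL
    have e1 : Nat.card L.fixingSubgroup = Module.finrank L M := IsGalois.card_fixingSubgroup_eq_finrank L
    have e2 := Subgroup.card_mul_index L.fixingSubgroup
    have e3 : Module.finrank K L * Module.finrank L M = Module.finrank K M := Module.finrank_mul_finrank K L M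
    rw [hcard, e1, ← e3, hL, mul_comm 5] at e2
    have hpos : 0 < Module.finrank L M := Module.finrank_pos
    exact Nat.eq_of_mul_eq_mul_left hpos e2
  have hn : L₂.fixingSubgroup.Normal := inferInstance
  have hne' : L₁.fixingSubgroup ≠ L₂.fixingSubgroup := by
    intro h
    apply hne
    rw [← IsGalois.fixedField_fixingSubgroup L₁, ← IsGalois.fixedField_fixingSubgroup L₂, h]
  have h := XCT_un L₁.fixingSubgroup L₂.fixingSubgroup (hidx L₁ f1) (hidx L₂ f2) hn hne'
  rw [hcard] at h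
  rw [h]
  have e : Nat.card {g : M ≃ₐ[K] M // g ∈ L₁.fixingSubgroup ∨ g ∈ L₂.fixingSubgroup} =
      Nat.card {g : M ≃ₐ[K] M // (∀ x ∈ L₁, g x = x) ∨ (∀ x ∈ L₂, g x = x)} := by
    apply Nat.card_congr
    refine Equiv.subtypeEquivRight fun g => ?_
    rw [IntermediateField.mem_fixingSubgroup_iff, IntermediateField.mem_fixingSubgroup_iff]
  rw [e]

end Pool.Agent.RF
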