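import Pool.Agent.helper13.RF.SpecT

/-!
# Project RF (MP_16912e_nt), stage 2, row TVA: `vv P` is a valuation
-/

set_option autoImplicit false

namespace Pool.Agent.RF

open NumberField

theorem TVA_mem {F : Type} [Field F] [NumberField F] (P : Ideal (𝓞 F)) (hP : P.IsPrime) (hP0 : P ≠ ⊥) (x : 𝓞 F) (k : ℕ) (hx : x ≠ 0) :
    x ∈ P ^ k ↔ k ≤ vv P x := by
  classical
  have hx0 : Ideal.span {x} ≠ ⊥ := by
    rw [Ne, Ideal.span_singleton_eq_bot]
    exact hx
  have hpr : Prime P := Ideal.prime_of_isPrime hP0 hP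
  have hk0 : P ^ k ≠ 0 := pow_ne_zero _ hpr.ne_zero
  have h1 : UniqueFactorizationMonoid.normalizedFactors (P ^ k) = Multiset.replicate k P := by
    rw [UniqueFactorizationMonoid.normalizedFactors_pow, UniqueFactorizationMonoid.normalizedFactors_irreducible hpr.irreducible,
      normalize_eq, Multiset.nsmul_singleton]
  rw [← Ideal.dvd_span_singleton, UniqueFactorizationMonoid.dvd_iff_normalizedFactors_le_normalizedFactors hk0 hx0, h1,
    ← Multiset.le_count_iff_replicate_le]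
  unfold vv
  constructor
  · intro h
    exact h.trans (le_of_eq (by congr))
  · intro h
    exact h.trans (le_of_eq (by congr))

theorem TVA_lt {F : Type} [Field F] [NumberField F] (P : Ideal (𝓞 F)) (hP : P.IsPrime) (hP0 : P ≠ ⊥) (x y : 𝓞 F)
    (hx : x ≠ 0) (hy : y ≠ 0) (h : vv P x < vv P y) : x + y ≠ 0 ∧ vv P (x + y) = vv P x := by
  have hn : x + y ∉ P ^ (vv P x + 1) := by
    intro hm
    have h1 : y ∈ P ^ (vv P x + 1) := (TVA_mem P hP hP0 y _ hy).2 h
    have h2 : x ∈ P ^ (vv P x + 1) := by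
      have h3 := (P ^ (vv P x + 1)).sub_mem hm h1
      rwa [add_sub_cancel_right] at h3
    have h4 := (TVA_mem P hP hP0 x _ hx).1 h2
    omega
  have h0 : x + y ≠ 0 := by
    intro h0
    rw [h0] at hn
    exact hn (Ideal.zero_mem _)
  refine ⟨h0, ?_⟩
  rw [TVA_mem P hP hP0 _ _ h0] at hn
  have h5 : vv P x ≤ vv P (x + y) := by
    rw [← TVA_mem P hP hP0 _ _ h0]
    exact (P ^ (vv P x)).add_mem ((TVA_mem P hP hP0 x _ hx).2 le_rfl) ((TVA_mem P hP hP0 y _ hy).2 h.le)
  omega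

theorem TVA : TVA_stmt := by
  intro F _ _ P hP hP0
  refine ⟨fun x k hx => TVA_mem P hP hP0 x k hx, ?_, ?_⟩
  · intro x y hx hy hxy
    rw [← TVA_mem P hP hP0 _ _ hxy]
    exact Ideal.add_mem _ ((TVA_mem P hP hP0 x _ hx).2 (min_le_left _ _)) ((TVA_mem P hP hP0 y _ hy).2 (min_le_right _ _))
  · intro x y hx hy hne
    rcases lt_or_gt_of_ne hne with h | h
    · obtain ⟨h1, h2⟩ := TVA_lt P hP hP0 x y hx hy h
      exact ⟨h1, by rw [h2, min_eq_left h.le]⟩
    · obtain ⟨h1, h2⟩ := TVA_lt P hP hP0 y x hy hx h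
      rw [add_comm] at h1 h2
      exact ⟨h1, by rw [h2, min_eq_right h.le]⟩

end Pool.Agent.RF
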