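import Pool.Agent.helper95.RF.SpecC2

/-!
# Project RF (MP_16912e_nt), block C part 2, row CSU: the sum of the fibres of a family
-/

set_option autoImplicit false

namespace Pool.Agent.RF

open Finset NumberField Pool.Agent.helper3.FT

/-- the numerical part -/
theorem CSU_num (R C1 C2 Q B V G W Qe P : ℝ) (hR : 1 ≤ R) (hC1 : 1 ≤ C1) (hC2 : 1 ≤ C2) (hQ : 1 ≤ Q) (hB : 1 ≤ B) (hV : 1 ≤ V)
    (hG : 1 ≤ G) (hW : 0 ≤ W) (hWV : W * V ≤ R * Q ^ 3) (hQe : 0 ≤ Qe) (hP0 : 0 ≤ P) (hP : P ^ 2 = Q ^ 3) :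
    C1 * (V / Q ^ 3) * (C2 * Qe * B * (Q * W + √(Q * W) * G * (P / B) ^ 2 + Q * G * (P / B) ^ 2 + Q * √W * (P / B)) + W * B ^ 2) ≤
      C1 * C2 * R * Qe * (B * Q + G * (Q ^ 2 * √V + Q * V) / B + Q * √V) + C1 * C2 * R * B ^ 2 := by
  have hQ0 : 0 < Q := by linarith
  have hB0 : 0 < B := by linarith
  have hV0 : 0 < V := by linarith
  have hQ3 : 0 < Q ^ 3 := by positivity
  set t := V / Q ^ 3 with ht
  have ht0 : 0 < t := by positivity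
  have htW : t * W ≤ R := by
    rw [ht, div_mul_eq_mul_div, div_le_iff₀ hQ3]
    linarith
  have htQ : t * Q ^ 3 = V := by rw [ht]; field_simp
  have hsV := Real.sqrt_nonneg V
  have hsV2 : √V ^ 2 = V := Real.sq_sqrt hV0.le
  have hRR : R * 1 ≤ R * R := mul_le_mul_of_nonneg_left hR (by linarith)
  have i1 : t * √(Q * W) ≤ R * (√V / Q) := by
    have hs := Real.sqrt_nonneg (Q * W)
    have hs2 : √(Q * W) ^ 2 = Q * W := Real.sq_sqrt (by positivity)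
    apply (sq_le_sq₀ (by positivity) (by positivity)).1
    have e1 : (t * √(Q * W)) ^ 2 = (t * W) * (V / Q ^ 2) := by
      rw [mul_pow, hs2, ← htQ]; field_simp
    have e2 : (R * (√V / Q)) ^ 2 = R * R * (V / Q ^ 2) := by
      rw [mul_pow, div_pow, hsV2]; ring
    rw [e1, e2]
    exact mul_le_mul_of_nonneg_right (by linarith) (by positivity)
  have i2 : t * √W * P ≤ R * √V := by
    have hs := Real.sqrt_nonneg W
    have hs2 : √W ^ 2 = W := Real.sq_sqrt hW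
    apply (sq_le_sq₀ (by positivity) (by positivity)).1
    have e1 : (t * √W * P) ^ 2 = (t * W) * V := by
      rw [mul_pow, mul_pow, hs2, hP, ← htQ]; ring
    have e2 : (R * √V) ^ 2 = R * R * V := by
      rw [mul_pow, hsV2]; ring
    rw [e1, e2]
    exact mul_le_mul_of_nonneg_right (by linarith) hV0.le
  have hPB : (P / B) ^ 2 = Q ^ 3 / B ^ 2 := by rw [div_pow, hP]
  -- the four terms
  have j1 : t * (B * (Q * W)) ≤ R * (B * Q) := by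
    have := mul_le_mul_of_nonneg_right htW (by positivity : 0 ≤ B * Q)
    linarith
  have j2 : t * (B * (√(Q * W) * G * (P / B) ^ 2)) ≤ R * (G * (Q ^ 2 * √V) / B) := by
    have := mul_le_mul_of_nonneg_right i1 (by positivity : 0 ≤ G * Q ^ 3 / B)
    have e1 : t * (B * (√(Q * W) * G * (P / B) ^ 2)) = t * √(Q * W) * (G * Q ^ 3 / B) := by
      rw [hPB]; field_simp
    have e2 : R * (G * (Q ^ 2 * √V) / B) = R * (√V / Q) * (G * Q ^ 3 / B) := by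
      field_simp
    rw [e1, e2]
    exact this
  have j3 : t * (B * (Q * G * (P / B) ^ 2)) ≤ R * (G * (Q * V) / B) := by
    have e1 : t * (B * (Q * G * (P / B) ^ 2)) = G * (Q * V) / B := by
      rw [hPB, ← htQ]; field_simp
    rw [e1]
    have : 0 ≤ G * (Q * V) / B := by positivity
    nlinarith
  have j4 : t * (B * (Q * √W * (P / B))) ≤ R * (Q * √V) := by
    have := mul_le_mul_of_nonneg_right i2 hQ0.le
    have e1 : t * (B * (Q * √W * (P / B))) = t * √W * P * Q := by field_simp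
    rw [e1]
    linarith
  have j5 : t * (W * B ^ 2) ≤ R * B ^ 2 := by
    have := mul_le_mul_of_nonneg_right htW (by positivity : 0 ≤ B ^ 2)
    linarith
  have k1 : t * (B * (Q * W + √(Q * W) * G * (P / B) ^ 2 + Q * G * (P / B) ^ 2 + Q * √W * (P / B))) ≤
      R * (B * Q + G * (Q ^ 2 * √V + Q * V) / B + Q * √V) := by
    have e1 : R * (B * Q + G * (Q ^ 2 * √V + Q * V) / B + Q * √V) =
        R * (B * Q) + R * (G * (Q ^ 2 * √V) / B) + R * (G * (Q * V) / B) + R * (Q * √V) := by ring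
    rw [e1]
    linarith
  have hCQ : 0 ≤ C1 * C2 * Qe := by positivity
  have k2 := mul_le_mul_of_nonneg_left k1 hCQ
  have k3 := mul_le_mul_of_nonneg_left j5 (by linarith : 0 ≤ C1)
  have k4 : C1 * (R * B ^ 2) ≤ C1 * C2 * R * B ^ 2 := by
    have : C1 * R * B ^ 2 * 1 ≤ C1 * R * B ^ 2 * C2 := mul_le_mul_of_nonneg_left hC2 (by positivity)
    linarith
  linarith

theorem CSU (h1 : CFB_stmt) (h2 : CER_stmt) : CSU_stmt := by
  intro η ε C₀ hη hη1 hε hC₀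
  obtain ⟨R, C1, hR, hC1, hF⟩ := h1 η hη hη1
  obtain ⟨C2, hC2, hE⟩ := h2 ε (18 * R * C₀) hε (by nlinarith)
  have hR18 : 1 ≤ 18 * R := by linarith
  have hCC : 1 ≤ C1 * C2 * (18 * R) := by
    have := one_le_mul_of_one_le_of_one_le hC1 hC2
    exact one_le_mul_of_one_le_of_one_le this hR18
  refine ⟨C1 * C2 * (18 * R), hCC, ?_⟩
  intro Q B V c G g T A x y z e₁ e₂ f hKF hQ hB hV hc hG hGQ hg hga hgb hco hRQ hcB hBQ hVQ
  have hQr : (1 : ℝ) ≤ Q := by exact_mod_cast hQ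
  have hBr : (1 : ℝ) ≤ B := by exact_mod_cast hB
  have hVr : (1 : ℝ) ≤ V := by exact_mod_cast hV
  have hV0 : (0 : ℝ) < V := by linarith
  have hQ0 : (0 : ℝ) < Q := by linarith
  have hQ3 : (0 : ℝ) < (Q : ℝ) ^ 3 := by positivity
  have hVQ3 : (V : ℝ) ≤ (Q : ℝ) ^ 3 := by linarith
  obtain ⟨H, hH⟩ : ∃ H : ℕ, H = ⌈8 * R * (Q : ℝ) ^ 3 / V⌉₊ := ⟨_, rfl⟩
  have hHlow : 8 * R * (Q : ℝ) ^ 3 ≤ H * V := by
    have := Nat.le_ceil (8 * R * (Q : ℝ) ^ 3 / V)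
    rw [← hH, div_le_iff₀ hV0] at this
    exact this
  have hHup : (H : ℝ) * V ≤ 9 * R * (Q : ℝ) ^ 3 := by
    have h := Nat.ceil_lt_add_one (a := 8 * R * (Q : ℝ) ^ 3 / V) (by positivity)
    rw [← hH] at h
    have h' := mul_le_mul_of_nonneg_right h.le hV0.le
    have e : (8 * R * (Q : ℝ) ^ 3 / V + 1) * V = 8 * R * (Q : ℝ) ^ 3 + V := by field_simp
    rw [e] at h'
    have h3 : (1 : ℝ) * (Q : ℝ) ^ 3 ≤ R * (Q : ℝ) ^ 3 := mul_le_mul_of_nonneg_right hR hQ3.le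
    linarith
  have hH1 : 1 ≤ H := by
    rw [hH, Nat.one_le_ceil_iff]
    positivity
  have hqlo : ∀ k ∈ T, (Q : ℝ) ^ 3 ≤ (k.norm.natAbs : ℝ) ^ 3 := by
    intro k hk
    have h : Q ≤ k.norm.natAbs := (hKF.kk k hk).lo.le
    have h' : (Q : ℝ) ≤ (k.norm.natAbs : ℝ) := by exact_mod_cast h
    exact pow_le_pow_left₀ hQ0.le h' 3
  have hqhi : ∀ k ∈ T, (k.norm.natAbs : ℝ) ^ 3 ≤ 8 * (Q : ℝ) ^ 3 := by
    intro k hk
    have h : k.norm.natAbs ≤ 2 * Q := (hKF.kk k hk).hi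
    have h' : (k.norm.natAbs : ℝ) ≤ 2 * Q := by exact_mod_cast h
    have h3 := pow_le_pow_left₀ (Nat.cast_nonneg _) h' 3
    calc _ ≤ (2 * (Q : ℝ)) ^ 3 := h3
      _ = _ := by ring
  obtain ⟨ES, hES⟩ : ∃ ES : OO → ℕ → ℝ, ∀ k h, ES k h = ‖T5.ESg (x k) (y k) B B 1 0 0 ((h : ℝ) * (A k).1 / (k.norm.natAbs : ℝ) ^ 3)
      ((h : ℝ) * (A k).2.1 / (k.norm.natAbs : ℝ) ^ 3) ((h : ℝ) * (A k).2.2 / (k.norm.natAbs : ℝ) ^ 3)
      ((h : ℝ) * e₁ k / (k.norm.natAbs : ℝ) ^ 3) ((h : ℝ) * e₂ k / (k.norm.natAbs : ℝ) ^ 3)‖ := ⟨_, fun _ _ => rfl⟩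
  have hES0 : ∀ k h, 0 ≤ ES k h := fun k h => by rw [hES]; exact norm_nonneg _
  have hfib : ∀ k ∈ T, |((FB (x k) (y k) (z k) B V (k.norm.natAbs ^ 3) (A k).1 (A k).2.1 (A k).2.2 (e₁ k) (e₂ k)
      (f k)).card : ℝ) - (B : ℝ) ^ 2 * V / (k.norm.natAbs : ℝ) ^ 3| ≤
      η * ((B : ℝ) ^ 2 * V / (k.norm.natAbs : ℝ) ^ 3) + C1 * (V / (Q : ℝ) ^ 3) * ∑ h ∈ Icc 1 (2 * H), ES k h := by
    intro k hk
    have h4 : 4 * V ≤ k.norm.natAbs ^ 3 := by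
      have : 4 * (V : ℝ) ≤ (k.norm.natAbs : ℝ) ^ 3 := hVQ.trans (hqlo k hk)
      exact_mod_cast this
    have h5 : R * ((k.norm.natAbs ^ 3 : ℕ) : ℝ) ≤ H * V := by
      push_cast
      have := mul_le_mul_of_nonneg_left (hqhi k hk) (by linarith : (0 : ℝ) ≤ R)
      linarith
    have h6 := hF (x k) (y k) (z k) B V (k.norm.natAbs ^ 3) H (A k).1 (A k).2.1 (A k).2.2 (e₁ k) (e₂ k) (f k) hB hV h4 h5
    push_cast at h6
    have e1 : ∑ h ∈ Icc 1 (2 * H), ES k h = ∑ h ∈ Icc 1 (2 * H), ‖T5.ESg (x k) (y k) B B 1 0 0 ((h : ℝ) * (A k).1 / (k.norm.natAbs : ℝ) ^ 3)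
      ((h : ℝ) * (A k).2.1 / (k.norm.natAbs : ℝ) ^ 3) ((h : ℝ) * (A k).2.2 / (k.norm.natAbs : ℝ) ^ 3)
      ((h : ℝ) * e₁ k / (k.norm.natAbs : ℝ) ^ 3) ((h : ℝ) * e₂ k / (k.norm.natAbs : ℝ) ^ 3)‖ :=
      Finset.sum_congr rfl fun h _ => hES k h
    rw [← e1] at h6
    refine h6.trans ?_
    have hSn : 0 ≤ ∑ h ∈ Icc 1 (2 * H), ES k h := Finset.sum_nonneg fun h _ => hES0 k h
    have h7 : (V : ℝ) / (k.norm.natAbs : ℝ) ^ 3 ≤ V / (Q : ℝ) ^ 3 := div_le_div_of_nonneg_left hV0.le hQ3 (hqlo k hk)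
    have h8 : C1 * ((V : ℝ) / (k.norm.natAbs : ℝ) ^ 3) ≤ C1 * (V / (Q : ℝ) ^ 3) := mul_le_mul_of_nonneg_left h7 (by linarith)
    have h9 := mul_le_mul_of_nonneg_right h8 hSn
    linarith
  have hsum : |∑ k ∈ T, ((FB (x k) (y k) (z k) B V (k.norm.natAbs ^ 3) (A k).1 (A k).2.1 (A k).2.2 (e₁ k) (e₂ k)
      (f k)).card : ℝ) - T0 T B V| ≤ η * T0 T B V + C1 * (V / (Q : ℝ) ^ 3) * ∑ k ∈ T, ∑ h ∈ Icc 1 (2 * H), ES k h := by
    unfold T0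
    rw [← Finset.sum_sub_distrib, Finset.mul_sum, Finset.mul_sum, ← Finset.sum_add_distrib]
    exact (Finset.abs_sum_le_sum_abs _ _).trans (Finset.sum_le_sum hfib)
  obtain ⟨P, hPdef⟩ : ∃ P : ℝ, P = √((Q : ℝ) ^ 3) := ⟨_, rfl⟩
  have hP0 : 0 ≤ P := by rw [hPdef]; exact Real.sqrt_nonneg _
  have hP2 : P ^ 2 = (Q : ℝ) ^ 3 := by rw [hPdef]; exact Real.sq_sqrt hQ3.le
  have hB0 : (0 : ℝ) < B := by linarith
  have hBP : (B : ℝ) ≤ P := by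
    apply (sq_le_sq₀ hB0.le hP0).1
    rw [hP2]
    exact hBQ
  have hL1 : 1 ≤ P / B := by rw [le_div_iff₀ hB0]; linarith
  have hL2 : P / B ≤ (Q : ℝ) ^ 2 := by
    rw [div_le_iff₀ hB0]
    have h3 : P ≤ (Q : ℝ) ^ 2 := by
      apply (sq_le_sq₀ hP0 (by positivity)).1
      rw [hP2]
      have : (Q : ℝ) ^ 3 * 1 ≤ (Q : ℝ) ^ 3 * Q := mul_le_mul_of_nonneg_left hQr hQ3.le
      nlinarith
    have : (Q : ℝ) ^ 2 * 1 ≤ (Q : ℝ) ^ 2 * B := mul_le_mul_of_nonneg_left hBr (by positivity)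
    linarith
  have hLB : (Q : ℝ) ^ 3 ≤ (P / B) ^ 2 * (B : ℝ) ^ 2 := by
    rw [div_pow, div_mul_cancel₀ _ (by positivity), hP2]
  have hW : ((2 * H : ℕ) : ℝ) * V ≤ 18 * R * (Q : ℝ) ^ 3 := by push_cast; linarith
  have hHc : ((2 * H : ℕ) : ℝ) * c * (B : ℝ) ^ 2 ≤ 18 * R * C₀ * (Q : ℝ) ^ 3 := by
    have a1 := mul_le_mul_of_nonneg_left hcB (Nat.cast_nonneg (2 * H) : (0 : ℝ) ≤ ((2 * H : ℕ) : ℝ))
    have a2 := mul_le_mul_of_nonneg_left hW (by linarith : (0 : ℝ) ≤ C₀)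
    linarith
  have hER := hE Q B (2 * H) c G (P / B) g T A x y (fun k h => (h : ℝ) * e₁ k / (k.norm.natAbs : ℝ) ^ 3)
    (fun k h => (h : ℝ) * e₂ k / (k.norm.natAbs : ℝ) ^ 3) hKF hQ hB (by omega) hc hG hGQ hL1 hL2 hg hga hgb hco hRQ hHc hLB
  have e1 : ∑ k ∈ T, ∑ h ∈ Icc 1 (2 * H), ES k h = ∑ k ∈ T, ∑ h ∈ Icc 1 (2 * H), ‖T5.ESg (x k) (y k) B B 1 0 0 ((h : ℝ) * (A k).1 / (k.norm.natAbs : ℝ) ^ 3)
      ((h : ℝ) * (A k).2.1 / (k.norm.natAbs : ℝ) ^ 3) ((h : ℝ) * (A k).2.2 / (k.norm.natAbs : ℝ) ^ 3)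
      ((h : ℝ) * e₁ k / (k.norm.natAbs : ℝ) ^ 3) ((h : ℝ) * e₂ k / (k.norm.natAbs : ℝ) ^ 3)‖ :=
    Finset.sum_congr rfl fun k _ => Finset.sum_congr rfl fun h _ => hES k h
  rw [← e1] at hER
  have hnum := CSU_num (18 * R) C1 C2 Q B V G ((2 * H : ℕ) : ℝ) ((Q : ℝ) ^ ε) P hR18 hC1 hC2 hQr hBr hVr hG (Nat.cast_nonneg _) hW
    (Real.rpow_nonneg hQ0.le _) hP0 hP2
  have hcoef : 0 ≤ C1 * ((V : ℝ) / (Q : ℝ) ^ 3) := by positivity
  have hfin := mul_le_mul_of_nonneg_left hER hcoef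
  linarith

end Pool.Agent.RF
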