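import Pool.Agent.helper13.RF.SpecU

/-!
# Project RF (MP_16912e_nt), row `rf:UOC`: the bad primes
-/

set_option autoImplicit false

namespace Pool.Agent.RF

open NumberField

open scoped QuadraticAlgebra

theorem UOC_int (a : ℤ) : star (a : OO) = a := by
  ext <;> simp

theorem UOC_nat (a : ℕ) : star (a : OO) = a := by
  ext <;> simp

theorem UOC_ph : ph * (ph - 1) = 1 := by
  ext <;> simp [ph]

/-- the conjugate divides the conjugate -/
theorem UOC_star {x y : OO} (h : x ∣ y) : star x ∣ star y := by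
  obtain ⟨z, rfl⟩ := h
  exact ⟨star z, by rw [star_mul']⟩

theorem UOC_star' {x y : OO} (h : star x ∣ y) : x ∣ star y := by
  have := UOC_star h
  rwa [star_star] at this

theorem UOC_prime {x : OO} (h : Prime x) : Prime (star x) := by
  refine ⟨?_, ?_, ?_⟩
  · intro h0
    apply h.1
    have := congrArg star h0
    rwa [star_star, star_zero] at this
  · intro hu
    apply h.2.1
    have := hu.star
    rwa [star_star] at this
  · intro a b hab
    have h1 : x ∣ star a * star b := by
      have := UOC_star' hab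
      rwa [star_mul'] at this
    rcases h.2.2 _ _ h1 with h2 | h2
    · left
      have := UOC_star h2
      rwa [star_star] at this
    · right
      have := UOC_star h2
      rwa [star_star] at this

theorem UOC (h1 : UTR_stmt) (h2 : YPL_stmt) : UOC_stmt := by
  intro p hp D₀ f l hD hl hlf hln
  by_contra hcon
  rw [not_or] at hcon
  obtain ⟨hc1, hc2⟩ := hcon
  have hfl : (l : ℤ) ∣ (f : ℤ) := by exact_mod_cast hlf
  have hlD : (l : ℤ) ∣ p.D := by
    rw [hD]
    exact Dvd.dvd.mul_left (dvd_pow hfl two_ne_zero) _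
  have h20 := hp.D20
  have hl5 : l ≠ 5 := by
    rintro rfl
    push_cast at hlD
    omega
  obtain ⟨S, -, hS1, -, hS2⟩ := h2 l hl hl5
  have hex : ∃ π ∈ S, ¬ π ∣ p.n := by
    by_contra hno
    push Not at hno
    apply hc1
    have := hS2 1 p.n (fun π hπ => by rw [pow_one]; exact hno π hπ)
    rwa [pow_one] at this
  obtain ⟨ρ, hρS, hρn⟩ := hex
  obtain ⟨hρ, hρl, -, hρm⟩ := hS1 ρ hρS
  -- the conjugate prime
  have hπ : Prime (star ρ) := UOC_prime hρ
  have hπl : star ρ ∣ (l : OO) := by
    have := UOC_star hρl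
    rwa [UOC_nat] at this
  have hπm : ∀ m : ℤ, star ρ ∣ (m : OO) → (l : ℤ) ∣ m := by
    intro m hm
    apply hρm
    have := UOC_star' hm
    rwa [UOC_int] at this
  have hnn : ∀ x : OO, ((x.norm : ℤ) : OO) = x * star x := by
    intro x
    rw [← QuadraticAlgebra.algebraMap_norm_eq_mul_star]
    simp
  have hρnn : ρ ∣ p.n * star p.n := by
    rw [← hnn]
    refine hρl.trans ?_
    obtain ⟨c, hc⟩ := hln
    rw [hc]
    push_cast
    exact Dvd.intro _ rfl
  have hπn : star ρ ∣ p.n := by
    rcases hρ.2.2 _ _ hρnn with h | h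
    · exact absurd h hρn
    · have := UOC_star h
      rwa [star_star] at this
  have hπn' : ¬ star ρ ∣ star p.n := by
    intro h
    apply hρn
    have := UOC_star h
    rwa [star_star, star_star] at this
  have hπD : star ρ ∣ (p.D : OO) := by
    refine hπl.trans ?_
    obtain ⟨c, hc⟩ := hlD
    rw [hc]
    push_cast
    exact Dvd.intro _ rfl
  generalize hg : star ρ = π at *
  have hX2 : π ∣ p.X ^ 2 := by
    have e : p.X ^ 2 = p.n ^ 2 * star p.n - w2 * (p.D : OO) * (25 * p.k) ^ 2 := by rw [← hp.e1]; ring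
    rw [e]
    refine dvd_sub ?_ ?_
    · exact Dvd.dvd.mul_right (dvd_pow hπn two_ne_zero) _
    · exact Dvd.dvd.mul_right (Dvd.dvd.mul_left hπD _) _
  have hX : π ∣ p.X := hπ.dvd_of_dvd_pow hX2
  obtain ⟨t1, t2, -⟩ := h1 p hp
  have hnph : ¬ π ∣ ph := by
    intro h
    apply hπ.2.1
    exact isUnit_of_dvd_unit h (IsUnit.of_mul_eq_one _ UOC_ph)
  have hM' : π ∣ star p.M := by
    have e : ph * star p.n * star p.M = -(2 * p.X * star (25 * p.k)) - p.n * p.M := by rw [← t1]; ring
    have hd : π ∣ ph * star p.n * star p.M := by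
      rw [e]
      refine dvd_sub ?_ (Dvd.dvd.mul_right hπn _)
      rw [dvd_neg]
      exact Dvd.dvd.mul_right (Dvd.dvd.mul_left hX _) _
    rcases hπ.2.2 _ _ hd with h | h
    · rcases hπ.2.2 _ _ h with h' | h'
      · exact absurd h' hnph
      · exact absurd h' hπn'
    · exact h
  have hK : π ∣ (25 * p.k) ^ 2 := by
    have e : ph * star p.n * (25 * p.k) ^ 2 = -(p.M * star p.M) - star (ph * star p.n * (25 * p.k) ^ 2) := by rw [t2]; ring
    have hd : π ∣ ph * star p.n * (25 * p.k) ^ 2 := by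
      rw [e]
      refine dvd_sub ?_ ?_
      · rw [dvd_neg]
        exact Dvd.dvd.mul_left hM' _
      · rw [star_mul', star_mul', star_star]
        exact Dvd.dvd.mul_right (Dvd.dvd.mul_left hπn _) _
    rcases hπ.2.2 _ _ hd with h | h
    · rcases hπ.2.2 _ _ h with h' | h'
      · exact absurd h' hnph
      · exact absurd h' hπn'
    · exact h
  have hK1 : π ∣ 25 * p.k := hπ.dvd_of_dvd_pow hK
  rcases hπ.2.2 _ _ hK1 with h | h
  · have h25 : (l : ℤ) ∣ 25 := hπm 25 (by exact_mod_cast h)
    have h25' : l ∣ 5 ^ 2 := by exact_mod_cast h25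
    exact hl5 ((Nat.prime_dvd_prime_iff_eq hl (by norm_num)).1 (hl.dvd_of_dvd_pow h25'))
  · apply hc2
    apply hπm
    rw [hnn]
    exact Dvd.dvd.mul_right h _

end Pool.Agent.RF
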