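import Pool.Agent.helper88.RF.SpecW
import Pool.Agent.helper47.RA.Num

/-!
# Project RF (MP_16912e_nt), part W, row WTU: the number of divisors up to associates
-/

set_option autoImplicit false

open Finset

namespace Pool.Agent.RF

section

variable {R : Type} [CommRing R] [IsDomain R] [IsDedekindDomain R]

theorem WTU_fin (J : Ideal R) (hJ : J ≠ 0) : {I : Ideal R | I ∣ J}.Finite := by
  have h := (UniqueFactorizationMonoid.fintypeSubtypeDvd J hJ)
  exact (Set.finite_range (fun x : {I : Ideal R // I ∣ J} => x.1)).subset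
    fun I hI => ⟨⟨I, hI⟩, rfl⟩

theorem WTU_mul (I J : Ideal R) (hI : I ≠ 0) (hJ : J ≠ 0) :
    {L : Ideal R | L ∣ I * J}.ncard ≤
      {L : Ideal R | L ∣ I}.ncard * {L : Ideal R | L ∣ J}.ncard := by
  have hI' := WTU_fin I hI
  have hJ' := WTU_fin J hJ
  have h : {L : Ideal R | L ∣ I * J} ⊆
      (fun p : Ideal R × Ideal R => p.1 * p.2) ''
        ({L : Ideal R | L ∣ I} ×ˢ {L : Ideal R | L ∣ J}) := by
    intro L hL
    obtain ⟨d₁, d₂, h1, h2, h3⟩ := exists_dvd_and_dvd_of_dvd_mul hL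
    exact ⟨(d₁, d₂), ⟨h1, h2⟩, h3.symm⟩
  calc _ ≤ _ := Set.ncard_le_ncard h ((hI'.prod hJ').image _)
    _ ≤ _ := Set.ncard_image_le (hI'.prod hJ')
    _ = _ := Set.ncard_prod

theorem WTU_pow (P : Ideal R) (hP : Prime P) (a : ℕ) :
    {L : Ideal R | L ∣ P ^ a}.ncard ≤ a + 1 := by
  classical
  have h : {L : Ideal R | L ∣ P ^ a} ⊆
      (((Finset.range (a + 1)).image (fun i => P ^ i) : Finset (Ideal R)) : Set (Ideal R)) := by
    intro L hL
    obtain ⟨i, hi, h1⟩ := (dvd_prime_pow hP a).1 hL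
    rw [Finset.coe_image]
    exact ⟨i, by simpa using Nat.lt_succ_of_le hi, (associated_iff_eq.1 h1).symm⟩
  calc _ ≤ _ := Set.ncard_le_ncard h (Finset.finite_toSet _)
    _ = _ := Set.ncard_coe_finset _
    _ ≤ _ := Finset.card_image_le
    _ = _ := Finset.card_range _

end

theorem WTU_ne (n : ℕ) (hn : n ≠ 0) : (n : OO) ≠ 0 := by
  intro h
  have h1 := congrArg QuadraticAlgebra.norm h
  rw [QuadraticAlgebra.norm_natCast, QuadraticAlgebra.norm_zero] at h1
  have h2 : (n : ℤ) = 0 := by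
    rcases pow_eq_zero_iff (two_ne_zero) |>.1 h1 with h
    exact h
  exact hn (by exact_mod_cast h2)

theorem WTU_unit (x : OO) : IsUnit x ↔ x.norm.natAbs = 1 := by
  rw [QuadraticAlgebra.isUnit_iff_norm_isUnit, Int.isUnit_iff_natAbs_eq]

theorem WTU_nmul (x y : OO) : (x * y).norm.natAbs = x.norm.natAbs * y.norm.natAbs := by
  rw [map_mul, Int.natAbs_mul]

theorem WTU_prime (hD : IsDomain OO) (hP : IsPrincipalIdealRing OO) (q : ℕ) (hq : q.Prime) :
    Prime (Ideal.span {(q : OO)}) ∨ ∃ P P' : Ideal OO, Prime P ∧ Prime P' ∧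
      Ideal.span {(q : OO)} = P * P' := by
  have hN : ((q : OO)).norm.natAbs = q ^ 2 := by
    rw [QuadraticAlgebra.norm_natCast, Int.natAbs_pow, Int.natAbs_natCast]
  have h0 : (q : OO) ≠ 0 := WTU_ne q hq.ne_zero
  have h1 : ¬ IsUnit (q : OO) := by
    rw [WTU_unit, hN]
    have := hq.one_lt
    nlinarith
  have hpr : ∀ x : OO, Prime x → Prime (Ideal.span {x}) := by
    intro x hx
    have h2 : Ideal.span {x} ≠ ⊥ := by
      rw [Ne, Ideal.span_singleton_eq_bot]
      exact hx.ne_zero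
    rw [Ideal.prime_iff_isPrime h2, Ideal.span_singleton_prime hx.ne_zero]
    exact hx
  have hirr : ∀ x : OO, x.norm.natAbs.Prime → Prime x := by
    intro x hx
    apply UniqueFactorizationMonoid.irreducible_iff_prime.1
    constructor
    · rw [WTU_unit]
      exact hx.one_lt.ne'
    · intro a b hab
      rw [hab, WTU_nmul] at hx
      rcases Nat.prime_mul_iff.1 hx with ⟨-, h⟩ | ⟨-, h⟩
      · right
        rw [WTU_unit]
        exact h
      · left
        rw [WTU_unit]
        exact h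
  obtain ⟨x, hx, y, hxy⟩ := WfDvdMonoid.exists_irreducible_factor h1 h0
  have hx' : Prime x := UniqueFactorizationMonoid.irreducible_iff_prime.1 hx
  have h3 : x.norm.natAbs * y.norm.natAbs = q ^ 2 := by rw [← WTU_nmul, ← hxy, hN]
  obtain ⟨i, hi, h4⟩ := (Nat.dvd_prime_pow hq).1 (Dvd.intro _ h3)
  interval_cases i
  · rw [pow_zero, ← WTU_unit] at h4
    exact absurd h4 hx'.not_unit
  · right
    rw [pow_one] at h4
    have h5 : y.norm.natAbs = q := by
      rw [h4, sq] at h3
      exact Nat.eq_of_mul_eq_mul_left hq.pos h3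
    refine ⟨Ideal.span {x}, Ideal.span {y}, hpr x hx', hpr y (hirr y (by rw [h5]; exact hq)), ?_⟩
    rw [hxy, Ideal.span_singleton_mul_span_singleton]
  · left
    have h5 : y.norm.natAbs = 1 := by
      rw [h4] at h3
      have : q ^ 2 * y.norm.natAbs = q ^ 2 * 1 := by rw [h3, mul_one]
      exact Nat.eq_of_mul_eq_mul_left (pow_pos hq.pos 2) this
    rw [← WTU_unit] at h5
    apply hpr
    rw [hxy]
    exact (associated_mul_unit_right x y h5).prime hx'

theorem WTU_main (hD : IsDomain OO) (hP : IsPrincipalIdealRing OO) (j : ℕ) (hj : 1 ≤ j) :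
    {I : Ideal OO | I ∣ Ideal.span {(j : OO)}}.ncard ≤ j.divisors.card ^ 2 := by
  induction j using Nat.recOnPosPrimePosCoprime with
  | prime_pow q a hq ha =>
    rw [Nat.divisors_prime_pow hq, Finset.card_map, Finset.card_range, Nat.cast_pow,
      ← Ideal.span_singleton_pow]
    rcases WTU_prime hD hP q hq with h | ⟨P, P', hP, hP', h⟩
    · exact (WTU_pow _ h a).trans (by nlinarith)
    · rw [h, mul_pow]
      refine (WTU_mul _ _ (pow_ne_zero _ hP.ne_zero) (pow_ne_zero _ hP'.ne_zero)).trans ?_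
      rw [sq]
      exact Nat.mul_le_mul (WTU_pow P hP a) (WTU_pow P' hP' a)
  | zero => omega
  | one =>
    have h : {I : Ideal OO | I ∣ Ideal.span {((1 : ℕ) : OO)}} ⊆ {⊤} := by
      intro I hI
      have h3 : I ∣ Ideal.span {((1 : ℕ) : OO)} := hI
      rw [Nat.cast_one, Ideal.span_singleton_one, Ideal.dvd_iff_le, top_le_iff] at h3
      exact h3
    refine (Set.ncard_le_ncard h (Set.finite_singleton _)).trans ?_
    simp
  | coprime a b ha hb hab iha ihb =>
    rw [Nat.cast_mul, ← Ideal.span_singleton_mul_span_singleton,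
      Nat.Coprime.card_divisors_mul hab, mul_pow]
    have h0 : ∀ c : ℕ, 1 < c → Ideal.span {(c : OO)} ≠ 0 := by
      intro c hc
      rw [Ne, Ideal.zero_eq_bot, Ideal.span_singleton_eq_bot]
      exact WTU_ne c (by omega)
    exact (WTU_mul _ _ (h0 a ha) (h0 b hb)).trans
      (Nat.mul_le_mul (iha ha.le) (ihb hb.le))

theorem WTU_proof (hWEU : WEU_stmt) : WTU_stmt := by
  obtain ⟨hD, hP⟩ := hWEU
  intro ε hε
  obtain ⟨C, hC, hdiv⟩ := Pool.Agent.helper47.RA.card_divisors_le (ε / 2) (by linarith)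
  refine ⟨C ^ 2, one_le_pow₀ hC, ?_⟩
  intro m hm S hS hA
  have hn : m.natAbs ≠ 0 := Int.natAbs_ne_zero.2 hm
  have hn1 : 1 ≤ m.natAbs := Nat.one_le_iff_ne_zero.2 hn
  have hS' : ∀ μ ∈ S, μ ∣ ((m.natAbs : ℕ) : OO) := by
    intro μ hμ
    have h1 := hS μ hμ
    rcases Int.natAbs_eq m with h | h
    · rw [h, Int.cast_natCast] at h1
      exact h1
    · rw [h, Int.cast_neg, Int.cast_natCast, dvd_neg] at h1
      exact h1
  have hne : Ideal.span {((m.natAbs : ℕ) : OO)} ≠ 0 := by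
    rw [Ne, Ideal.zero_eq_bot, Ideal.span_singleton_eq_bot]
    exact WTU_ne _ hn
  have h1 : S.card ≤ {I : Ideal OO | I ∣ Ideal.span {((m.natAbs : ℕ) : OO)}}.ncard := by
    rw [← Set.ncard_coe_finset S]
    refine Set.ncard_le_ncard_of_injOn (fun μ => Ideal.span {μ}) ?_ ?_ (WTU_fin _ hne)
    · intro μ hμ
      change Ideal.span {μ} ∣ Ideal.span {((m.natAbs : ℕ) : OO)}
      rw [Ideal.dvd_iff_le, Ideal.span_singleton_le_span_singleton]
      exact hS' μ hμ
    · intro μ hμ ν hν h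
      have h' : Ideal.span {μ} = Ideal.span {ν} := h
      rw [Ideal.span_singleton_eq_span_singleton] at h'
      exact hA μ hμ ν hν h'
  have h2 := WTU_main hD hP m.natAbs hn1
  have h3 := hdiv m.natAbs hn1
  have h4 : (S.card : ℝ) ≤ ((m.natAbs.divisors.card : ℕ) : ℝ) ^ 2 := by exact_mod_cast h1.trans h2
  refine h4.trans ?_
  have h5 := pow_le_pow_left₀ (Nat.cast_nonneg _) h3 2
  refine h5.trans (le_of_eq ?_)
  rw [mul_pow, ← Real.rpow_natCast ((m.natAbs : ℝ) ^ (ε / 2)) 2, ← Real.rpow_mul (Nat.cast_nonneg _)]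
  congr 2
  push_cast
  ring

end Pool.Agent.RF
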